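import Pool.Agent.Lib.MP_ab3705_an.Hard

/-- The isometry class of a separable infinite-dimensional Banach space that is not the Hilbert
space is hard for the G-delta subsets of zero-dimensional second countable spaces. -/
theorem Pool.Agent.Results.MP_ab3705_an.GdeltaHard.result
    (X : Type) [NormedAddCommGroup X] [NormedSpace ℝ X] [CompleteSpace X]
    [TopologicalSpace.SeparableSpace X] (hX : ¬ FiniteDimensional ℝ X)
    (hl : IsEmpty (X ≃ₗᵢ[ℝ] lp (fun _ : ℕ => ℝ) 2))
    (T : Type) [TopologicalSpace T] [SecondCountableTopology T]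
    (hT : TopologicalSpace.IsTopologicalBasis {s : Set T | IsClopen s})
    (G : Set T) (hG : IsGδ G) :
    ∃ f : T → (ℕ →₀ ℚ) → ℝ, Continuous f ∧ (∀ t, f t ∈ Pool.Agent.Lib.MP_ab3705_an.Bind) ∧
      ∀ t, f t ∈ Pool.Agent.Lib.MP_ab3705_an.cls X ↔ t ∈ G :=
  Pool.Agent.Lib.MP_ab3705_an.gd_hard hX hl hT hG
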