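import Pool.Agent.Lib.MP_ab3705_an.Gen.Main

set_option autoImplicit false

namespace Pool.Agent.Results.MP_ab3705_an.Generic

open Pool.Agent.Lib.MP_ab3705_an.GD Pool.Agent.Lib.MP_ab3705_an.Gen

/-- Zero-one law: among the equivalent norms of a separable infinite-dimensional Banach space,
the spaces asked for in Q1 are generic (and rigid) when it does not contain `ℓ_∞^n` uniformly;
otherwise there is none and the norms with a G-delta class form a meagre set. -/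
theorem result (X : Type) [NormedAddCommGroup X] [NormedSpace ℝ X] [CompleteSpace X]
    [TopologicalSpace.SeparableSpace X] (hX : ¬ FiniteDimensional ℝ X) :
    List.TFAE
      [¬ HasLinf X,
        {f : EN X | Has X f.1 Good} ∈ residual (EN X),
        ¬ IsMeagre {f : EN X | Has X f.1 fun Y _ _ => GdIn Pinf Y ∨ GdIn Bn Y},
        ∀ ε : ℝ, 0 < ε → ∃ (Y : Type) (_ : NormedAddCommGroup Y) (_ : NormedSpace ℝ Y)
          (e : X ≃L[ℝ] Y), (∀ x, ‖e x‖ ≤ ‖x‖ ∧ ‖x‖ ≤ (1 + ε) * ‖e x‖) ∧ Good Y,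
        ∃ (Y : Type) (_ : NormedAddCommGroup Y) (_ : NormedSpace ℝ Y),
          Nonempty (X ≃L[ℝ] Y) ∧ ¬ IsLp Y ∧ ¬ IsGurarii Y ∧ (GdIn Pinf Y ∨ GdIn Bn Y)] := by
  tfae_have 1 → 2 := fun hL => generic hX hL
  tfae_have 2 → 3 := by
    intro h hm
    obtain ⟨f, ⟨⟨Y, _, _, e, he, hG⟩, h2⟩, -⟩ := approx (Filter.inter_mem h hm) 1 one_pos
    exact h2 ⟨Y, _, _, e, he, Or.inl hG.2.2.1⟩
  tfae_have 3 → 1 := fun h hL => h (meagre hX hL)
  tfae_have 2 → 4 := by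
    intro h ε hε
    obtain ⟨f, ⟨Y, _, _, e, he, hG⟩, h2⟩ := approx h ε hε
    exact ⟨Y, _, _, e, h2 (pb e) he, hG⟩
  tfae_have 4 → 5 := by
    intro h
    obtain ⟨Y, _, _, e, -, h1, h2, h3, -⟩ := h 1 one_pos
    exact ⟨Y, _, _, ⟨e⟩, h1, h2, Or.inl h3⟩
  tfae_have 5 → 1 := by
    rintro ⟨Y, _, _, ⟨e⟩, -, hG, hd⟩ hL
    obtain ⟨_, _, h3⟩ := equiv_facts hX e
    exact hG (only Y h3 (hL.of_equiv e) hd)
  tfae_finish

end Pool.Agent.Results.MP_ab3705_an.Generic
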